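import Mathlib

set_option autoImplicit false

open MeasureTheory Filter Topology Set

namespace Pool.Agent.H41.LI

/-- The truncated integral `∫_0^{1-ε} du/log u + ∫_{1+ε}^x du/log u`. -/
noncomputable def trunc (x ε : ℝ) : ℝ :=
  (∫ u in (0:ℝ)..(1 - ε), (Real.log u)⁻¹) + ∫ u in (1 + ε)..x, (Real.log u)⁻¹

/-- The logarithmic integral with principal value: the limit of `trunc x ε` for `ε → 0+`. -/
noncomputable def li (x : ℝ) : ℝ := limUnder (𝓝[>] (0:ℝ)) (trunc x)

noncomputable def h (u : ℝ) : ℝ := (Real.log u)⁻¹ - (u - 1)⁻¹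

theorem h_bounds {u : ℝ} (hu : 0 < u) : 0 ≤ h u ∧ h u ≤ 1 := by
  unfold h
  rcases lt_trichotomy u 1 with h1 | h1 | h1
  · have hl : Real.log u < 0 := Real.log_neg hu h1
    have hm : u - 1 < 0 := by linarith
    have a1 : Real.log u ≤ u - 1 := Real.log_le_sub_one_of_pos hu
    have a2 : 1 - u⁻¹ ≤ Real.log u := Real.one_sub_inv_le_log_of_pos hu
    have e1 : (u - 1)⁻¹ ≤ (Real.log u)⁻¹ := (inv_le_inv_of_neg hm hl).2 a1
    have h3 : 1 - u⁻¹ < 0 := by
      have : 1 < u⁻¹ := (one_lt_inv₀ hu).2 h1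
      linarith
    have e2 : (Real.log u)⁻¹ ≤ (1 - u⁻¹)⁻¹ := (inv_le_inv_of_neg hl h3).2 a2
    have e3 : (1 - u⁻¹)⁻¹ = 1 + (u - 1)⁻¹ := by
      have : u ≠ 0 := hu.ne'
      have : u - 1 ≠ 0 := hm.ne
      field_simp
      ring
    constructor <;> linarith
  · subst h1
    simp
  · have hl : 0 < Real.log u := Real.log_pos h1
    have hm : 0 < u - 1 := by linarith
    have a1 : Real.log u ≤ u - 1 := Real.log_le_sub_one_of_pos hu
    have a2 : 1 - u⁻¹ ≤ Real.log u := Real.one_sub_inv_le_log_of_pos hu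
    have e1 : (u - 1)⁻¹ ≤ (Real.log u)⁻¹ := (inv_le_inv₀ hm hl).2 a1
    have h3 : 0 < 1 - u⁻¹ := by
      have : u⁻¹ < 1 := inv_lt_one_of_one_lt₀ h1
      linarith
    have e2 : (Real.log u)⁻¹ ≤ (1 - u⁻¹)⁻¹ := (inv_le_inv₀ hl h3).2 a2
    have e3 : (1 - u⁻¹)⁻¹ = 1 + (u - 1)⁻¹ := by
      have : u ≠ 0 := hu.ne'
      have : u - 1 ≠ 0 := hm.ne'
      field_simp
      ring
    constructor <;> linarith

theorem h_meas : Measurable h := by
  unfold h
  exact (Real.measurable_log.inv).sub ((measurable_id.sub_const 1).inv)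

theorem h_int {a b : ℝ} (ha : 0 ≤ a) (hb : 0 ≤ b) : IntervalIntegrable h volume a b := by
  rw [intervalIntegrable_iff]
  refine Measure.integrableOn_of_bounded (M := 1) (by simp) h_meas.aestronglyMeasurable ?_
  filter_upwards [ae_restrict_mem measurableSet_uIoc] with u hu
  have hu0 : 0 < u := lt_of_le_of_lt (le_min ha hb) hu.1
  have := h_bounds hu0
  rw [Real.norm_eq_abs, abs_of_nonneg this.1]
  exact this.2

theorem inv_int_left {ε : ℝ} (h0 : 0 < ε) (h1 : ε < 1) :
    IntervalIntegrable (fun u : ℝ => (u - 1)⁻¹) volume 0 (1 - ε) := by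
  apply ContinuousOn.intervalIntegrable
  apply ContinuousOn.inv₀ (by fun_prop)
  intro u hu
  rw [uIcc_of_le (by linarith)] at hu
  have := hu.2
  intro h
  linarith

theorem inv_int_right {a x : ℝ} (h0 : 1 < a) (hx : 1 < x) :
    IntervalIntegrable (fun u : ℝ => (u - 1)⁻¹) volume a x := by
  apply ContinuousOn.intervalIntegrable
  apply ContinuousOn.inv₀ (by fun_prop)
  intro u hu
  have h2 : 1 < u := lt_of_lt_of_le (lt_min h0 hx) hu.1
  intro h
  linarith

theorem int_left {ε : ℝ} (h0 : 0 < ε) (h1 : ε < 1) :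
    ∫ u in (0:ℝ)..(1 - ε), (Real.log u)⁻¹ = (∫ u in (0:ℝ)..(1 - ε), h u) + Real.log ε := by
  have e : ∫ u in (0:ℝ)..(1 - ε), (Real.log u)⁻¹
      = ∫ u in (0:ℝ)..(1 - ε), (h u + (u - 1)⁻¹) := by
    apply intervalIntegral.integral_congr
    intro u _
    simp [h]
  rw [e, intervalIntegral.integral_add (h_int le_rfl (by linarith)) (inv_int_left h0 h1)]
  congr 1
  have := intervalIntegral.integral_comp_sub_right (a := 0) (b := 1 - ε) (fun v : ℝ => v⁻¹) 1
  rw [this, integral_inv_of_neg (by norm_num) (by linarith)]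
  congr 1
  have : (1 - ε - 1) / (0 - 1) = ε := by ring
  exact this

theorem int_right {a x : ℝ} (h0 : 1 < a) (hx : 1 < x) :
    ∫ u in a..x, (Real.log u)⁻¹ = (∫ u in a..x, h u) + (Real.log (x - 1) - Real.log (a - 1)) := by
  have e : ∫ u in a..x, (Real.log u)⁻¹ = ∫ u in a..x, (h u + (u - 1)⁻¹) := by
    apply intervalIntegral.integral_congr
    intro u _
    simp [h]
  rw [e, intervalIntegral.integral_add (h_int (by linarith) (by linarith)) (inv_int_right h0 hx)]
  congr 1
  have := intervalIntegral.integral_comp_sub_right (a := a) (b := x) (fun v : ℝ => v⁻¹) 1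
  rw [this, integral_inv_of_pos (by linarith) (by linarith),
    Real.log_div (by linarith) (by linarith)]

/-- Closed form of the limit. -/
noncomputable def lim (x : ℝ) : ℝ := (∫ u in (0:ℝ)..x, h u) + Real.log (x - 1)

theorem tendsto_trunc {x : ℝ} (hx : 1 < x) : Tendsto (trunc x) (𝓝[>] (0:ℝ)) (𝓝 (lim x)) := by
  have key : ∀ᶠ ε in 𝓝[>] (0:ℝ), |trunc x ε - lim x| ≤ 2 * ε := by
    have hm : Ioo (0:ℝ) (min 1 (x - 1)) ∈ 𝓝[>] (0:ℝ) :=
      Ioo_mem_nhdsGT (lt_min one_pos (by linarith))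
    filter_upwards [hm] with ε hε
    have e0 : 0 < ε := hε.1
    have e1 : ε < 1 := lt_of_lt_of_le hε.2 (min_le_left _ _)
    have e2 : ε < x - 1 := lt_of_lt_of_le hε.2 (min_le_right _ _)
    have s1 : (∫ u in (0:ℝ)..(1 - ε), h u) + (∫ u in (1 - ε)..(1 + ε), h u)
        = ∫ u in (0:ℝ)..(1 + ε), h u :=
      intervalIntegral.integral_add_adjacent_intervals (h_int le_rfl (by linarith))
        (h_int (by linarith) (by linarith))
    have s2 : (∫ u in (0:ℝ)..(1 + ε), h u) + (∫ u in (1 + ε)..x, h u)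
        = ∫ u in (0:ℝ)..x, h u :=
      intervalIntegral.integral_add_adjacent_intervals (h_int le_rfl (by linarith))
        (h_int (by linarith) (by linarith))
    have s3 : trunc x ε - lim x = - ∫ u in (1 - ε)..(1 + ε), h u := by
      unfold trunc lim
      rw [int_left e0 e1, int_right (by linarith) hx, ← s2, ← s1]
      have : (1 + ε - 1) = ε := by ring
      rw [this]
      ring
    rw [s3, abs_neg]
    have b := intervalIntegral.norm_integral_le_of_norm_le_const (a := 1 - ε) (b := 1 + ε)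
      (f := h) (C := 1) (by
        intro u hu
        rw [uIoc_of_le (by linarith)] at hu
        have hu0 : 0 < u := by linarith [hu.1]
        have := h_bounds hu0
        rw [Real.norm_eq_abs, abs_of_nonneg this.1]
        exact this.2)
    rw [Real.norm_eq_abs] at b
    have : |1 + ε - (1 - ε)| = 2 * ε := by
      rw [show 1 + ε - (1 - ε) = 2 * ε by ring, abs_of_pos (by linarith)]
    rw [this] at b
    linarith
  rw [tendsto_iff_norm_sub_tendsto_zero]
  have t : Tendsto (fun ε : ℝ => 2 * ε) (𝓝[>] (0:ℝ)) (𝓝 0) := by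
    have : Tendsto (fun ε : ℝ => 2 * ε) (𝓝 (0:ℝ)) (𝓝 (2 * 0)) :=
      (continuous_const.mul continuous_id).tendsto 0
    rw [mul_zero] at this
    exact this.mono_left nhdsWithin_le_nhds
  exact squeeze_zero' (Eventually.of_forall fun _ => norm_nonneg _)
    (by filter_upwards [key] with ε hε; rwa [Real.norm_eq_abs]) t

theorem li_eq {x : ℝ} (hx : 1 < x) : li x = lim x := (tendsto_trunc hx).limUnder_eq

theorem li_tendsto {x : ℝ} (hx : 1 < x) : Tendsto (trunc x) (𝓝[>] (0:ℝ)) (𝓝 (li x)) := by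
  rw [li_eq hx]
  exact tendsto_trunc hx

theorem li_sub {y x : ℝ} (hy : 1 < y) (hx : 1 < x) :
    li x - li y = ∫ u in y..x, (Real.log u)⁻¹ := by
  rw [li_eq hx, li_eq hy, int_right hy hx]
  unfold lim
  have s2 : (∫ u in (0:ℝ)..y, h u) + (∫ u in y..x, h u) = ∫ u in (0:ℝ)..x, h u :=
    intervalIntegral.integral_add_adjacent_intervals (h_int le_rfl (by linarith))
      (h_int (by linarith) (by linarith))
  rw [← s2]
  ring

theorem log_int {y x : ℝ} (hy : 1 < y) (hx : 1 < x) :
    IntervalIntegrable (fun u : ℝ => (Real.log u)⁻¹) volume y x := by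
  apply ContinuousOn.intervalIntegrable
  have hpos : ∀ u ∈ uIcc y x, 1 < u := fun u hu => lt_of_lt_of_le (lt_min hy hx) hu.1
  apply ContinuousOn.inv₀
  · exact Real.continuousOn_log.mono (fun u hu => by
      have := hpos u hu
      simp only [mem_compl_iff, mem_singleton_iff]
      linarith)
  · intro u hu
    exact (Real.log_pos (hpos u hu)).ne'

theorem li_mono {y x : ℝ} (hy : 1 < y) (hyx : y ≤ x) : li y ≤ li x := by
  have hx : 1 < x := by linarith
  have := li_sub hy hx
  have h2 : 0 ≤ ∫ u in y..x, (Real.log u)⁻¹ := by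
    apply intervalIntegral.integral_nonneg hyx
    intro u hu
    exact inv_nonneg.2 (Real.log_nonneg (by linarith [hu.1]))
  linarith

theorem li_two_nonneg : 0 ≤ li 2 := by
  rw [li_eq (by norm_num)]
  unfold lim
  have h2 : 0 ≤ ∫ u in (0:ℝ)..2, h u := by
    apply intervalIntegral.integral_nonneg_of_ae_restrict (by norm_num)
    filter_upwards [ae_restrict_mem measurableSet_Icc, ae_restrict_of_ae (Measure.ae_ne volume (0:ℝ))]
      with u hu hu0
    exact (h_bounds (lt_of_le_of_ne hu.1 (Ne.symm hu0))).1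
  have : Real.log (2 - 1) = 0 := by norm_num
  rw [this]
  linarith

end Pool.Agent.H41.LI
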