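import Pool.Agent.H41.LI.Basic

set_option autoImplicit false

open MeasureTheory Filter Topology Set

namespace Pool.Agent.H41.LI

theorem log_le_pade {u : ℝ} (hu : 1 ≤ u) : Real.log u ≤ (u ^ 2 + 4 * u - 5) / (4 * u + 2) := by
  have hd : ∀ x : ℝ, 0 < x → HasDerivAt (fun u : ℝ => (u ^ 2 + 4 * u - 5) / (4 * u + 2) - Real.log u)
      ((x - 1) ^ 3 / (x * (2 * x + 1) ^ 2)) x := by
    intro x hx
    have h1 : HasDerivAt (fun u : ℝ => u ^ 2 + 4 * u - 5) (2 * x + 4) x := by
      have := ((hasDerivAt_pow 2 x).add ((hasDerivAt_id x).const_mul 4)).sub_const 5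
      refine this.congr_deriv ?_
      norm_num
    have h2 : HasDerivAt (fun u : ℝ => 4 * u + 2) 4 x := by
      have := ((hasDerivAt_id x).const_mul (4:ℝ)).add_const 2
      refine this.congr_deriv ?_
      norm_num
    have h3 := (h1.div h2 (by linarith : 4 * x + 2 ≠ 0)).sub (Real.hasDerivAt_log hx.ne')
    refine h3.congr_deriv ?_
    have e1 : (2 * x + 1) ≠ 0 := by linarith
    have e2 : (4 * x + 2) ≠ 0 := by linarith
    have e3 : x ≠ 0 := hx.ne'
    field_simp
    ring
  have mono : MonotoneOn (fun u : ℝ => (u ^ 2 + 4 * u - 5) / (4 * u + 2) - Real.log u)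
      (Ici 1) := by
    apply monotoneOn_of_deriv_nonneg (convex_Ici 1)
    · intro x hx
      exact (hd x (lt_of_lt_of_le one_pos hx)).continuousAt.continuousWithinAt
    · intro x hx
      rw [interior_Ici] at hx
      exact (hd x (lt_trans one_pos hx)).differentiableAt.differentiableWithinAt
    · intro x hx
      rw [interior_Ici] at hx
      have hx1 : 1 < x := hx
      rw [(hd x (lt_trans one_pos hx)).deriv]
      have : 0 ≤ x - 1 := by linarith
      positivity
  have := mono (mem_Ici.2 le_rfl) (mem_Ici.2 hu) hu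
  simp only [Real.log_one] at this
  norm_num at this
  exact this

theorem pade_le_log {u : ℝ} (hu : 1 ≤ u) :
    3 * (u ^ 2 - 1) / (u ^ 2 + 4 * u + 1) ≤ Real.log u := by
  have hd : ∀ x : ℝ, 0 < x →
      HasDerivAt (fun u : ℝ => Real.log u - 3 * (u ^ 2 - 1) / (u ^ 2 + 4 * u + 1))
      ((x - 1) ^ 4 / (x * (x ^ 2 + 4 * x + 1) ^ 2)) x := by
    intro x hx
    have h1 : HasDerivAt (fun u : ℝ => 3 * (u ^ 2 - 1)) (3 * (2 * x)) x := by
      have := ((hasDerivAt_pow 2 x).sub_const (1:ℝ)).const_mul 3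
      refine this.congr_deriv ?_
      norm_num
    have h2 : HasDerivAt (fun u : ℝ => u ^ 2 + 4 * u + 1) (2 * x + 4) x := by
      have := ((hasDerivAt_pow 2 x).add ((hasDerivAt_id x).const_mul 4)).add_const 1
      refine this.congr_deriv ?_
      norm_num
    have hne : x ^ 2 + 4 * x + 1 ≠ 0 := by positivity
    have h3 := (Real.hasDerivAt_log hx.ne').sub (h1.div h2 hne)
    refine h3.congr_deriv ?_
    have e3 : x ≠ 0 := hx.ne'
    field_simp
    ring
  have mono : MonotoneOn (fun u : ℝ => Real.log u - 3 * (u ^ 2 - 1) / (u ^ 2 + 4 * u + 1))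
      (Ici 1) := by
    apply monotoneOn_of_deriv_nonneg (convex_Ici 1)
    · intro x hx
      exact (hd x (lt_of_lt_of_le one_pos hx)).continuousAt.continuousWithinAt
    · intro x hx
      rw [interior_Ici] at hx
      exact (hd x (lt_trans one_pos hx)).differentiableAt.differentiableWithinAt
    · intro x hx
      rw [interior_Ici] at hx
      have hx1 : 1 < x := hx
      rw [(hd x (lt_trans one_pos hx)).deriv]
      have : 0 ≤ x - 1 := by linarith
      positivity
  have := mono (mem_Ici.2 le_rfl) (mem_Ici.2 hu) hu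
  simp only [Real.log_one] at this
  norm_num at this
  exact this

theorem h_ge_left {u : ℝ} (h0 : 0 < u) (h1 : u < 1) : 1 / 3 + 1 / 3 * (u + 1)⁻¹ ≤ h u := by
  unfold h
  have a := pade_le_log (one_le_inv_iff₀.2 ⟨h0, h1.le⟩)
  rw [Real.log_inv] at a
  have hl : Real.log u < 0 := Real.log_neg h0 h1
  have e : 3 * (u⁻¹ ^ 2 - 1) / (u⁻¹ ^ 2 + 4 * u⁻¹ + 1) = 3 * (1 - u ^ 2) / (1 + 4 * u + u ^ 2) := by
    have : u ≠ 0 := h0.ne'
    field_simp
  rw [e] at a
  have hq : 0 < 1 + 4 * u + u ^ 2 := by positivity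
  have hm : 0 < 3 * (1 - u ^ 2) := by nlinarith
  have hr : 0 < 3 * (1 - u ^ 2) / (1 + 4 * u + u ^ 2) := div_pos hm hq
  have b : (-(3 * (1 - u ^ 2) / (1 + 4 * u + u ^ 2)))⁻¹ ≤ (Real.log u)⁻¹ :=
    (inv_le_inv_of_neg (by linarith) hl).2 (by linarith)
  have c : (-(3 * (1 - u ^ 2) / (1 + 4 * u + u ^ 2)))⁻¹ - (u - 1)⁻¹
      = 1 / 3 + 1 / 3 * (u + 1)⁻¹ := by
    have e1 : u - 1 ≠ 0 := by linarith
    have e2 : u + 1 ≠ 0 := by linarith
    have e3 : 1 - u ^ 2 ≠ 0 := by
      have : 0 < 1 - u ^ 2 := by linarith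
      exact this.ne'
    have e4 : (1 - u ^ 2) = -((u - 1) * (u + 1)) := by ring
    rw [e4]
    field_simp
    ring
  linarith

theorem h_ge_right {u : ℝ} (h1 : 1 < u) : 3 * (u + 5)⁻¹ ≤ h u := by
  unfold h
  have a := log_le_pade h1.le
  have hl : 0 < Real.log u := Real.log_pos h1
  have b : ((u ^ 2 + 4 * u - 5) / (4 * u + 2))⁻¹ ≤ (Real.log u)⁻¹ :=
    (inv_le_inv₀ (lt_of_lt_of_le hl a) hl).2 a
  have c : ((u ^ 2 + 4 * u - 5) / (4 * u + 2))⁻¹ - (u - 1)⁻¹ = 3 * (u + 5)⁻¹ := by
    have e1 : u - 1 ≠ 0 := by linarith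
    have e2 : u + 5 ≠ 0 := by linarith
    have e4 : (u ^ 2 + 4 * u - 5) = (u - 1) * (u + 5) := by ring
    rw [e4]
    field_simp
    ring
  linarith

theorem int_h_left : 1 / 3 + 1 / 3 * Real.log 2 ≤ ∫ u in (0:ℝ)..1, h u := by
  have hc : IntervalIntegrable (fun u : ℝ => 1 / 3 + 1 / 3 * (u + 1)⁻¹) volume 0 1 := by
    apply ContinuousOn.intervalIntegrable
    rw [uIcc_of_le zero_le_one]
    apply ContinuousOn.add continuousOn_const
    apply ContinuousOn.mul continuousOn_const
    apply ContinuousOn.inv₀ (by fun_prop)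
    intro u hu
    linarith [hu.1]
  have := intervalIntegral.integral_mono_on_of_le_Ioo zero_le_one hc (h_int le_rfl zero_le_one)
    (fun u hu => h_ge_left hu.1 hu.2)
  have hi : IntervalIntegrable (fun u : ℝ => (u + 1)⁻¹) volume 0 1 := by
    apply ContinuousOn.intervalIntegrable
    rw [uIcc_of_le zero_le_one]
    apply ContinuousOn.inv₀ (by fun_prop)
    intro u hu
    linarith [hu.1]
  rw [intervalIntegral.integral_add (by simp) (hi.const_mul _),
    intervalIntegral.integral_const_mul, intervalIntegral.integral_const] at this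
  have e := intervalIntegral.integral_comp_add_right (a := 0) (b := 1) (fun v : ℝ => v⁻¹) 1
  rw [e, integral_inv_of_pos (by norm_num) (by norm_num)] at this
  norm_num at this ⊢
  linarith

theorem int_h_right {x : ℝ} (hx : 1 ≤ x) :
    3 * Real.log ((x + 5) / 6) ≤ ∫ u in (1:ℝ)..x, h u := by
  have hi : IntervalIntegrable (fun u : ℝ => 3 * (u + 5)⁻¹) volume 1 x := by
    apply ContinuousOn.intervalIntegrable
    rw [uIcc_of_le hx]
    apply ContinuousOn.mul continuousOn_const
    apply ContinuousOn.inv₀ (by fun_prop)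
    intro u hu
    linarith [hu.1]
  have := intervalIntegral.integral_mono_on_of_le_Ioo hx hi
    (h_int zero_le_one (by linarith)) (fun u hu => h_ge_right hu.1)
  rw [intervalIntegral.integral_const_mul] at this
  have e := intervalIntegral.integral_comp_add_right (a := 1) (b := x) (fun v : ℝ => v⁻¹) 5
  rw [e, integral_inv_of_pos (by norm_num) (by linarith)] at this
  norm_num at this
  exact this

theorem li_ge {x : ℝ} (hx : 1 < x) :
    1 / 3 + 1 / 3 * Real.log 2 + 3 * Real.log ((x + 5) / 6) + Real.log (x - 1) ≤ li x := by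
  rw [li_eq hx]
  unfold lim
  have s : (∫ u in (0:ℝ)..1, h u) + (∫ u in (1:ℝ)..x, h u) = ∫ u in (0:ℝ)..x, h u :=
    intervalIntegral.integral_add_adjacent_intervals (h_int le_rfl zero_le_one)
      (h_int zero_le_one (by linarith))
  have a := int_h_left
  have b := int_h_right hx.le
  linarith

theorem mid {a b : ℝ} (ha : 1 < a) (hab : a ≤ b) :
    (b - a) * (Real.log ((a + b) / 2))⁻¹ ≤ ∫ u in a..b, (Real.log u)⁻¹ := by
  set c := (a + b) / 2 with hc
  have hc1 : 1 < c := by rw [hc]; linarith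
  set L := Real.log c with hL
  have hLp : 0 < L := Real.log_pos hc1
  have hpt : ∀ u : ℝ, 1 < u → L⁻¹ - (c * L ^ 2)⁻¹ * (u - c) ≤ (Real.log u)⁻¹ := by
    intro u hu
    have h1 : Real.log u ≤ L + (u - c) / c := by
      have := Real.log_le_sub_one_of_pos (show 0 < u / c by positivity)
      rw [Real.log_div (by linarith) (by linarith)] at this
      have e : u / c - 1 = (u - c) / c := by
        field_simp
      rw [e] at this
      linarith
    have hlu : 0 < Real.log u := Real.log_pos hu
    have h2 : (L + (u - c) / c)⁻¹ ≤ (Real.log u)⁻¹ :=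
      (inv_le_inv₀ (lt_of_lt_of_le hlu h1) hlu).2 h1
    have h3 : L⁻¹ - (c * L ^ 2)⁻¹ * (u - c) ≤ (L + (u - c) / c)⁻¹ := by
      have hq : 0 < L + (u - c) / c := lt_of_lt_of_le hlu h1
      rw [← one_div (L + (u - c) / c), le_div_iff₀ hq]
      have e : (L⁻¹ - (c * L ^ 2)⁻¹ * (u - c)) * (L + (u - c) / c)
          = 1 - ((u - c) / (c * L)) ^ 2 := by
        have e1 : c ≠ 0 := by linarith
        have e2 : L ≠ 0 := hLp.ne'
        field_simp
        ring
      rw [e]
      have := sq_nonneg ((u - c) / (c * L))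
      linarith
    linarith
  have hcont : IntervalIntegrable (fun u : ℝ => u - c) volume a b :=
    (by fun_prop : Continuous (fun u : ℝ => u - c)).intervalIntegrable _ _
  have hi1 : IntervalIntegrable (fun u : ℝ => (c * L ^ 2)⁻¹ * (u - c)) volume a b :=
    hcont.const_mul _
  have hi : IntervalIntegrable (fun u : ℝ => L⁻¹ - (c * L ^ 2)⁻¹ * (u - c)) volume a b :=
    (by simp : IntervalIntegrable (fun _ : ℝ => L⁻¹) volume a b).sub hi1
  have := intervalIntegral.integral_mono_on hab hi (log_int ha (by linarith))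
    (fun u hu => hpt u (by linarith [hu.1]))
  rw [intervalIntegral.integral_sub (by simp) hi1, intervalIntegral.integral_const_mul,
    intervalIntegral.integral_const] at this
  have e := intervalIntegral.integral_comp_sub_right (a := a) (b := b) (fun v : ℝ => v) c
  rw [e, integral_id] at this
  have e2 : (b - c) ^ 2 - (a - c) ^ 2 = 0 := by
    rw [hc]
    ring
  rw [e2] at this
  simp only [smul_eq_mul, zero_div, mul_zero, sub_zero] at this
  exact this

theorem l3_lb : (1.0985:ℝ) ≤ Real.log 3 := by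
  have a := pade_le_log (u := 3 / 2) (by norm_num)
  rw [Real.log_div (by norm_num) (by norm_num)] at a
  have b := Real.log_two_gt_d9
  norm_num at a b ⊢
  linarith

theorem l3_ub : Real.log 3 ≤ (1.0995:ℝ) := by
  have a := log_le_pade (u := 3 / 2) (by norm_num)
  rw [Real.log_div (by norm_num) (by norm_num)] at a
  have b := Real.log_two_lt_d9
  norm_num at a b ⊢
  linarith

theorem l5_lb : (1.6094:ℝ) ≤ Real.log 5 := by
  have a := pade_le_log (u := 5 / 4) (by norm_num)
  rw [Real.log_div (by norm_num) (by norm_num),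
    show (4:ℝ) = 2 * 2 by norm_num, Real.log_mul (by norm_num) (by norm_num)] at a
  have b := Real.log_two_gt_d9
  norm_num at a b ⊢
  linarith

theorem l5_ub : Real.log 5 ≤ (1.6096:ℝ) := by
  have a := log_le_pade (u := 5 / 4) (by norm_num)
  rw [Real.log_div (by norm_num) (by norm_num),
    show (4:ℝ) = 2 * 2 by norm_num, Real.log_mul (by norm_num) (by norm_num)] at a
  have b := Real.log_two_lt_d9
  norm_num at a b ⊢
  linarith

theorem l7_lb : (1.9459:ℝ) ≤ Real.log 7 := by
  have a := log_le_pade (u := 8 / 7) (by norm_num)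
  rw [Real.log_div (by norm_num) (by norm_num),
    show (8:ℝ) = 2 * (2 * 2) by norm_num, Real.log_mul (by norm_num) (by norm_num),
    Real.log_mul (by norm_num) (by norm_num)] at a
  have b := Real.log_two_gt_d9
  norm_num at a b ⊢
  linarith

theorem l7_ub : Real.log 7 ≤ (1.946:ℝ) := by
  have a := pade_le_log (u := 8 / 7) (by norm_num)
  rw [Real.log_div (by norm_num) (by norm_num),
    show (8:ℝ) = 2 * (2 * 2) by norm_num, Real.log_mul (by norm_num) (by norm_num),
    Real.log_mul (by norm_num) (by norm_num)] at a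
  have b := Real.log_two_lt_d9
  norm_num at a b ⊢
  linarith

theorem log_six : Real.log 6 = Real.log 2 + Real.log 3 := by
  rw [← Real.log_mul (by norm_num) (by norm_num)]
  norm_num

theorem log_four : Real.log 4 = 2 * Real.log 2 := by
  rw [show (4:ℝ) = 2 * 2 by norm_num, Real.log_mul (by norm_num) (by norm_num)]
  ring

theorem li_two : (1.02:ℝ) ≤ li 2 := by
  have a := li_ge (x := 2) (by norm_num)
  have b := pade_le_log (u := 7 / 6) (by norm_num)
  have c := Real.log_two_gt_d9
  norm_num at a b c ⊢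
  linarith

theorem li_three : (2.12:ℝ) ≤ li 3 := by
  have a := li_ge (x := 3) (by norm_num)
  have b := pade_le_log (u := 4 / 3) (by norm_num)
  have c := Real.log_two_gt_d9
  norm_num at a b c ⊢
  linarith

theorem li_five : (3.4:ℝ) ≤ li 5 := by
  have a := li_ge (x := 5) (by norm_num)
  rw [show ((5:ℝ) + 5) / 6 = 5 / 3 by norm_num, show (5:ℝ) - 1 = 4 by norm_num,
    Real.log_div (by norm_num) (by norm_num), log_four] at a
  have b := l3_ub
  have b' := l5_lb
  have c := Real.log_two_gt_d9
  norm_num at a b b' c ⊢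
  linarith

theorem li_seven : (4.4:ℝ) ≤ li 7 := by
  have a := li_ge (x := 7) (by norm_num)
  rw [show ((7:ℝ) + 5) / 6 = 2 by norm_num, show (7:ℝ) - 1 = 6 by norm_num, log_six] at a
  have b := l3_lb
  have c := Real.log_two_gt_d9
  norm_num at a b c ⊢
  linarith

theorem li_ten : (6.07:ℝ) ≤ li 10 := by
  have a := li_three
  have s1 := li_sub (y := 3) (x := 5) (by norm_num) (by norm_num)
  have s2 := li_sub (y := 5) (x := 7) (by norm_num) (by norm_num)
  have s3 := li_sub (y := 7) (x := 10) (by norm_num) (by norm_num)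
  have m1 := mid (a := 3) (b := 5) (by norm_num) (by norm_num)
  have m2 := mid (a := 5) (b := 7) (by norm_num) (by norm_num)
  have m3 := mid (a := 7) (b := 10) (by norm_num) (by norm_num)
  rw [show ((3:ℝ) + 5) / 2 = 4 by norm_num] at m1
  rw [show ((5:ℝ) + 7) / 2 = 6 by norm_num] at m2
  rw [show ((7:ℝ) + 10) / 2 = 17 / 2 by norm_num] at m3
  have u2 := Real.log_two_lt_d9
  have u2' := Real.log_two_gt_d9
  have u3 := l3_ub
  have n1 : (0.7213:ℝ) ≤ (Real.log 4)⁻¹ := by
    rw [log_four, le_inv_comm₀ (by norm_num) (by linarith)]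
    refine le_trans (mul_le_mul_of_nonneg_left u2.le (by norm_num)) ?_
    norm_num
  have n2 : (0.5578:ℝ) ≤ (Real.log 6)⁻¹ := by
    rw [log_six, le_inv_comm₀ (by norm_num) (by linarith [l3_lb])]
    refine le_trans (add_le_add u2.le u3) ?_
    norm_num
  have n3 : (0.4668:ℝ) ≤ (Real.log (17 / 2))⁻¹ := by
    rw [le_inv_comm₀ (by norm_num) (Real.log_pos (by norm_num))]
    have e : Real.log (17 / 2) = Real.log 2 + (Real.log 2 + (Real.log 2 + Real.log (17 / 16))) := by
      rw [← Real.log_mul (by norm_num) (by norm_num), ← Real.log_mul (by norm_num) (by norm_num),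
        ← Real.log_mul (by norm_num) (by norm_num)]
      norm_num
    have e2 := Real.log_le_sub_one_of_pos (show (0:ℝ) < 17 / 16 by norm_num)
    rw [e]
    have : Real.log 2 + (Real.log 2 + (Real.log 2 + Real.log (17 / 16))) ≤ 2.1421 := by
      norm_num at e2 u2 ⊢
      linarith
    refine this.trans ?_
    norm_num
  norm_num at a m1 m2 m3 n1 n2 n3 ⊢
  linarith

/-- The numerical fact behind `θ(N) > N`. -/
theorem ten_ineq :
    (10:ℝ) ≤ (Real.log 2 + Real.log 3 + Real.log 5 + Real.log 7)
      + Real.log 10 * (li 10 - 4) := by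
  have e : Real.log 10 = Real.log 2 + Real.log 5 := by
    rw [← Real.log_mul (by norm_num) (by norm_num)]
    norm_num
  have a := li_ten
  have h3 := l3_lb
  have h5 := l5_lb
  have h7 := l7_lb
  have h2 := Real.log_two_gt_d9
  have h10 : (2.3025:ℝ) ≤ Real.log 10 := by
    rw [e]
    norm_num at h2 h5 ⊢
    linarith
  have hm : (2.3025:ℝ) * 2.07 ≤ Real.log 10 * (li 10 - 4) := by
    apply mul_le_mul h10 _ (by norm_num) (by linarith)
    norm_num at a ⊢
    linarith
  norm_num at hm h2 h3 h5 h7 ⊢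
  linarith

end Pool.Agent.H41.LI
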